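import Pool.Agent.Q19.AcaEval

set_option autoImplicit false

/-!
# MP_9ec89f_lc: tight space bounds of alternating one-counter automata

For realtime and for one-way alternating one-counter automata the tight bounds on the counter for
recognizing nonregular languages are: strong space `n` (unary and binary alphabet), middle space
`n` (unary) and `log n` (binary), weak space `log n` (unary and binary).

The model (`ACA`, configurations, steps, accepting trees, modes, space notions, tight bounds) is
defined in `Pool.Agent.Q19.Aca`.
-/

namespace Pool.Agent.Results.MP_9ec89f_lc.Table

open Pool.Agent.Q19.Aca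

theorem result (mode : Mode) :
    Tight mode 1 .strong (fun n => (n : ℝ)) ∧
    Tight mode 2 .strong (fun n => (n : ℝ)) ∧
    Tight mode 1 .middle (fun n => (n : ℝ)) ∧
    Tight mode 2 .middle (fun n => Real.log n) ∧
    Tight mode 1 .weak (fun n => Real.log n) ∧
    Tight mode 2 .weak (fun n => Real.log n) := by
  refine ⟨tight_table mode 1 (Or.inl rfl) .strong, tight_table mode 2 (Or.inr rfl) .strong, ?_, ?_,
    tight_table mode 1 (Or.inl rfl) .weak, tight_table mode 2 (Or.inr rfl) .weak⟩
  · have h := tight_table mode 1 (Or.inl rfl) .middle
    simpa only [table, if_true] using h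
  · exact tight_table mode 2 (Or.inr rfl) .middle

end Pool.Agent.Results.MP_9ec89f_lc.Table
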